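import Pool.Agent.Lib.MP_e46711_an.DefsA

/-!
# MP_e46711_an, module A3: change of variables from the strip to the ring
-/

open Set Filter Topology MeasureTheory
open scoped ContDiff ENNReal

namespace Pool.Agent.Lib.MP_e46711_an.H34

open Pool.Agent.Lib.MP_e46711_an

abbrev E2 : Type := EuclideanSpace ℝ (Fin 2)

/-- the exponent -/
noncomputable def ex (ℓ : ℝ) (h : ℝ → ℝ) (δ : ℝ) (z : ℝ × ℝ) : ℝ :=
  2 * Real.pi * δ * h z.1 * z.2 / ℓ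

/-- the modulus -/
noncomputable def md (ℓ : ℝ) (h : ℝ → ℝ) (δ ρ : ℝ) (z : ℝ × ℝ) : ℝ := ρ * Real.exp (ex ℓ h δ z)

/-- the map into the plane -/
noncomputable def F0 (ℓ : ℝ) (h : ℝ → ℝ) (δ ρ : ℝ) (z : ℝ × ℝ) : ℝ × ℝ :=
  (md ℓ h δ ρ z * Real.cos (2 * Real.pi * z.1 / ℓ), md ℓ h δ ρ z * Real.sin (2 * Real.pi * z.1 / ℓ))

/-- the identification of the plane with the Euclidean plane -/
noncomputable def eL : (ℝ × ℝ) ≃L[ℝ] E2 :=
  (ContinuousLinearEquiv.finTwoArrow ℝ ℝ).symm.trans (EuclideanSpace.equiv (Fin 2) ℝ).symm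

theorem eL_apply (z : ℝ × ℝ) : eL z = !₂[z.1, z.2] := by
  rfl

theorem Fmap_eq (ℓ : ℝ) (h : ℝ → ℝ) (δ ρ : ℝ) (z : ℝ × ℝ) :
    Fmap ℓ h δ ρ z = eL (F0 ℓ h δ ρ z) := rfl

theorem eL_mp : MeasurePreserving (fun z : ℝ × ℝ => eL z) volume volume := by
  have h1 := (MeasureTheory.volume_preserving_finTwoArrow ℝ).symm
  have h2 := PiLp.volume_preserving_toLp (Fin 2)
  exact h2.comp h1

theorem eL_emb : MeasurableEmbedding (fun z : ℝ × ℝ => eL z) :=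
  eL.toHomeomorph.measurableEmbedding

section

variable {ℓ : ℝ} {h : ℝ → ℝ} {δ ρ : ℝ}

/-- the derivative -/
noncomputable def D0 (ℓ : ℝ) (h : ℝ → ℝ) (δ ρ : ℝ) (z : ℝ × ℝ) : ℝ × ℝ →L[ℝ] ℝ × ℝ :=
  (Matrix.toLin (Module.Basis.finTwoProd ℝ) (Module.Basis.finTwoProd ℝ)
    !![md ℓ h δ ρ z * (2 * Real.pi / ℓ * (δ * deriv h z.1 * z.2) * Real.cos (2 * Real.pi * z.1 / ℓ)
        - 2 * Real.pi / ℓ * Real.sin (2 * Real.pi * z.1 / ℓ)),
      md ℓ h δ ρ z * (2 * Real.pi / ℓ * (δ * h z.1) * Real.cos (2 * Real.pi * z.1 / ℓ));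
      md ℓ h δ ρ z * (2 * Real.pi / ℓ * (δ * deriv h z.1 * z.2) * Real.sin (2 * Real.pi * z.1 / ℓ)
        + 2 * Real.pi / ℓ * Real.cos (2 * Real.pi * z.1 / ℓ)),
      md ℓ h δ ρ z * (2 * Real.pi / ℓ * (δ * h z.1) * Real.sin (2 * Real.pi * z.1 / ℓ))]).toContinuousLinearMap

theorem D0_apply (z w : ℝ × ℝ) : D0 ℓ h δ ρ z w =
    (md ℓ h δ ρ z * (2 * Real.pi / ℓ * (δ * deriv h z.1 * z.2) * Real.cos (2 * Real.pi * z.1 / ℓ)
        - 2 * Real.pi / ℓ * Real.sin (2 * Real.pi * z.1 / ℓ)) * w.1 +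
      md ℓ h δ ρ z * (2 * Real.pi / ℓ * (δ * h z.1) * Real.cos (2 * Real.pi * z.1 / ℓ)) * w.2,
    md ℓ h δ ρ z * (2 * Real.pi / ℓ * (δ * deriv h z.1 * z.2) * Real.sin (2 * Real.pi * z.1 / ℓ)
        + 2 * Real.pi / ℓ * Real.cos (2 * Real.pi * z.1 / ℓ)) * w.1 +
      md ℓ h δ ρ z * (2 * Real.pi / ℓ * (δ * h z.1) * Real.sin (2 * Real.pi * z.1 / ℓ)) * w.2) := by
  unfold D0
  rw [Matrix.toLin_finTwoProd_toContinuousLinearMap]
  simp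

theorem det_D0 (z : ℝ × ℝ) : (D0 ℓ h δ ρ z).det =
    -((2 * Real.pi / ℓ) ^ 2 * (δ * h z.1) * (md ℓ h δ ρ z) ^ 2) := by
  unfold D0
  rw [ContinuousLinearMap.det]
  simp only [LinearMap.coe_toContinuousLinearMap, LinearMap.det_toLin, Matrix.det_fin_two_of]
  have h1 := Real.sin_sq_add_cos_sq (2 * Real.pi * z.1 / ℓ)
  set a := Real.cos (2 * Real.pi * z.1 / ℓ)
  set b := Real.sin (2 * Real.pi * z.1 / ℓ)
  linear_combination (-((2 * Real.pi / ℓ) ^ 2 * (δ * h z.1) * (md ℓ h δ ρ z) ^ 2)) * h1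

theorem hasFDerivAt_ex (hh : Differentiable ℝ h) (z : ℝ × ℝ) :
    HasFDerivAt (ex ℓ h δ) ((2 * Real.pi / ℓ * (δ * deriv h z.1 * z.2)) •
      ContinuousLinearMap.fst ℝ ℝ ℝ + (2 * Real.pi / ℓ * (δ * h z.1)) •
      ContinuousLinearMap.snd ℝ ℝ ℝ) z := by
  have h1 : HasFDerivAt (fun z : ℝ × ℝ => h z.1) (deriv h z.1 • ContinuousLinearMap.fst ℝ ℝ ℝ) z :=
    (hh z.1).hasDerivAt.comp_hasFDerivAt z hasFDerivAt_fst
  have h2 := (h1.mul (hasFDerivAt_snd (𝕜 := ℝ) (E := ℝ) (F := ℝ) (p := z))).const_mul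
    (2 * Real.pi * δ / ℓ)
  have h3 : (ex ℓ h δ) = fun z : ℝ × ℝ => 2 * Real.pi * δ / ℓ * (h z.1 * z.2) := by
    funext w
    unfold ex
    ring
  rw [h3]
  refine h2.congr_fderiv ?_
  ext <;> simp <;> ring

theorem hasFDerivAt_F0 (hh : Differentiable ℝ h) (z : ℝ × ℝ) :
    HasFDerivAt (F0 ℓ h δ ρ) (D0 ℓ h δ ρ z) z := by
  have h1 := (((Real.hasDerivAt_exp (ex ℓ h δ z)).comp_hasFDerivAt z
    (hasFDerivAt_ex (ℓ := ℓ) (δ := δ) hh z)).const_mul ρ)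
  have h0 : HasFDerivAt (fun z : ℝ × ℝ => 2 * Real.pi * z.1 / ℓ)
      ((2 * Real.pi / ℓ) • ContinuousLinearMap.fst ℝ ℝ ℝ) z := by
    have := (hasFDerivAt_fst (𝕜 := ℝ) (E := ℝ) (F := ℝ) (p := z)).const_mul (2 * Real.pi / ℓ)
    refine this.congr_of_eventuallyEq ?_
    refine Eventually.of_forall fun w => ?_
    simp only
    ring
  have h2 := (Real.hasDerivAt_cos (2 * Real.pi * z.1 / ℓ)).comp_hasFDerivAt z h0
  have h3 := (Real.hasDerivAt_sin (2 * Real.pi * z.1 / ℓ)).comp_hasFDerivAt z h0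
  have h4 := (h1.mul h2).prodMk (h1.mul h3)
  refine h4.congr_fderiv ?_
  refine ContinuousLinearMap.ext fun w => ?_
  rw [D0_apply]
  unfold md
  ext <;> simp <;> ring

/-- the half-open strip -/
def strip (ℓ : ℝ) : Set (ℝ × ℝ) := Ioc 0 ℓ ×ˢ Ioo (-1) 1

theorem measurableSet_strip (ℓ : ℝ) : MeasurableSet (strip ℓ) := measurableSet_Ioc.prod measurableSet_Ioo

theorem muT_eq (ℓ : ℝ) : muT ℓ = volume.restrict (strip ℓ) := by
  unfold muT strip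
  rw [Measure.prod_restrict, Measure.volume_eq_prod]

theorem md_pos (hρ : 0 < ρ) (z : ℝ × ℝ) : 0 < md ℓ h δ ρ z := mul_pos hρ (Real.exp_pos _)

theorem F0_inj (hℓ : 0 < ℓ) (hpos : ∀ s, 0 < h s) (hδ : 0 < δ) (hρ : 0 < ρ) :
    InjOn (F0 ℓ h δ ρ) (strip ℓ) := by
  rintro ⟨s, y⟩ ⟨hs, hy⟩ ⟨s', y'⟩ ⟨hs', hy'⟩ heq
  simp only [F0, Prod.mk.injEq] at heq
  obtain ⟨e1, e2⟩ := heq
  simp only at hs hs'
  have hm := md_pos (ℓ := ℓ) (h := h) (δ := δ) hρ (s, y)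
  have hm' := md_pos (ℓ := ℓ) (h := h) (δ := δ) hρ (s', y')
  set m := md ℓ h δ ρ (s, y)
  set m' := md ℓ h δ ρ (s', y')
  set θ := 2 * Real.pi * s / ℓ with hθ
  set θ' := 2 * Real.pi * s' / ℓ with hθ'
  have h1 := Real.sin_sq_add_cos_sq θ
  have h2 := Real.sin_sq_add_cos_sq θ'
  have h3 : m ^ 2 = m' ^ 2 := by
    calc m ^ 2 = (m * Real.cos θ) ^ 2 + (m * Real.sin θ) ^ 2 := by linear_combination (-m ^ 2) * h1
      _ = (m' * Real.cos θ') ^ 2 + (m' * Real.sin θ') ^ 2 := by rw [e1, e2]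
      _ = m' ^ 2 := by linear_combination (m' ^ 2) * h2
  have h4 : m = m' := (pow_left_inj₀ hm.le hm'.le two_ne_zero).1 h3
  rw [← h4] at e1 e2
  have h5 : Real.cos θ = Real.cos θ' := mul_left_cancel₀ hm.ne' e1
  have h6 : Real.sin θ = Real.sin θ' := mul_left_cancel₀ hm.ne' e2
  have h7 : (θ : Real.Angle) = θ' := Real.Angle.cos_sin_inj h5 h6
  rw [Real.Angle.angle_eq_iff_two_pi_dvd_sub] at h7
  obtain ⟨k, hk⟩ := h7
  have hpi := Real.pi_pos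
  have h8 : s - s' = ℓ * k := by
    have : 2 * Real.pi * (s - s') = 2 * Real.pi * (ℓ * k) := by
      have h9 : θ * ℓ = 2 * Real.pi * s := by rw [hθ]; field_simp
      have h10 : θ' * ℓ = 2 * Real.pi * s' := by rw [hθ']; field_simp
      linear_combination ℓ * hk - h9 + h10
    exact mul_left_cancel₀ (by positivity) this
  have hk0 : k = 0 := by
    have h9 : s - s' < ℓ := by linarith [hs.2, hs'.1]
    have h10 : -ℓ < s - s' := by linarith [hs.1, hs'.2]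
    rw [h8] at h9 h10
    have h11 : (k : ℝ) < 1 := by
      by_contra hcon
      push Not at hcon
      nlinarith
    have h12 : (-1 : ℝ) < k := by
      by_contra hcon
      push Not at hcon
      nlinarith
    have h13 : k < 1 := by exact_mod_cast h11
    have h14 : -1 < k := by exact_mod_cast h12
    omega
  have hss : s = s' := by
    rw [hk0] at h8
    simp at h8
    linarith
  subst hss
  have hmm : Real.exp (ex ℓ h δ (s, y)) = Real.exp (ex ℓ h δ (s, y')) := by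
    have : ρ * Real.exp (ex ℓ h δ (s, y)) = ρ * Real.exp (ex ℓ h δ (s, y')) := h4
    exact mul_left_cancel₀ hρ.ne' this
  have h15 := Real.exp_injective hmm
  unfold ex at h15
  simp only at h15
  have hh := hpos s
  have h16 : y = y' := by
    have h17 : (2 * Real.pi * δ * h s / ℓ) * y = (2 * Real.pi * δ * h s / ℓ) * y' := by
      rw [show 2 * Real.pi * δ * h s / ℓ * y = 2 * Real.pi * δ * h s * y / ℓ by ring, h15]
      ring
    exact mul_left_cancel₀ (by positivity) h17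
  rw [h16]

theorem F0_per (hℓ : 0 < ℓ) (hper : ∀ s, h (s + ℓ) = h s) (y : ℝ) :
    Function.Periodic (fun s => F0 ℓ h δ ρ (s, y)) ℓ := by
  intro s
  simp only
  have h1 : 2 * Real.pi * (s + ℓ) / ℓ = 2 * Real.pi * s / ℓ + 2 * Real.pi := by field_simp
  unfold F0 md ex
  simp only [hper, h1, Real.cos_add_two_pi, Real.sin_add_two_pi]

theorem Om_eq (hℓ : 0 < ℓ) (hper : ∀ s, h (s + ℓ) = h s) :
    Om ℓ h δ ρ = (fun z => eL z) '' (F0 ℓ h δ ρ '' strip ℓ) := by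
  unfold Om
  rw [image_image]
  ext x
  constructor
  · rintro ⟨⟨s, y⟩, ⟨-, hy⟩, rfl⟩
    obtain ⟨s', hs', h1⟩ := (F0_per (δ := δ) (ρ := ρ) hℓ hper y).exists_mem_Ioc hℓ s 0
    refine ⟨(s', y), ⟨by simpa using hs', hy⟩, ?_⟩
    simp only at h1 ⊢
    rw [← h1]
    rfl
  · rintro ⟨z, ⟨-, hy⟩, rfl⟩
    exact ⟨z, ⟨mem_univ _, hy⟩, rfl⟩

/-- the Jacobian -/
noncomputable def Jac (ℓ : ℝ) (h : ℝ → ℝ) (δ ρ : ℝ) (z : ℝ × ℝ) : ℝ :=
  (2 * Real.pi / ℓ) ^ 2 * (δ * h z.1) * (md ℓ h δ ρ z) ^ 2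

theorem abs_det_D0 (hℓ : 0 < ℓ) (hpos : ∀ s, 0 < h s) (hδ : 0 < δ) (hρ : 0 < ρ) (z : ℝ × ℝ) :
    |(D0 ℓ h δ ρ z).det| = Jac ℓ h δ ρ z := by
  rw [det_D0, abs_neg, abs_of_pos]
  · rfl
  · have := hpos z.1
    have := md_pos (ℓ := ℓ) (h := h) (δ := δ) hρ z
    have := Real.pi_pos
    positivity

theorem Jac_eq (z : ℝ × ℝ) : Jac ℓ h δ ρ z =
    2 * δ * (2 * Real.pi * ρ / ℓ) ^ 2 * (h z.1 * om ℓ h δ z / 2) := by
  unfold Jac md om ex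
  have h1 : Real.exp (4 * Real.pi * δ * h z.1 * z.2 / ℓ) =
      Real.exp (2 * Real.pi * δ * h z.1 * z.2 / ℓ) ^ 2 := by
    rw [← Real.exp_nat_mul]
    congr 1
    push_cast
    ring
  rw [h1]
  ring

/-- the first part of A3 -/
theorem integral_Om (hℓ : 0 < ℓ) (hh : Differentiable ℝ h) (hper : ∀ s, h (s + ℓ) = h s)
    (hpos : ∀ s, 0 < h s) (hδ : 0 < δ) (hρ : 0 < ρ) (f : E2 → ℝ) :
    ∫ x in Om ℓ h δ ρ, f x
      = 2 * δ * (2 * Real.pi * ρ / ℓ) ^ 2 * Inu ℓ h δ (fun z => f (Fmap ℓ h δ ρ z)) := by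
  rw [Om_eq hℓ hper, eL_mp.setIntegral_image_emb eL_emb,
    integral_image_eq_integral_abs_det_fderiv_smul volume (measurableSet_strip ℓ)
      (fun z _ => (hasFDerivAt_F0 hh z).hasFDerivWithinAt) (F0_inj hℓ hpos hδ hρ)]
  unfold Inu
  rw [muT_eq, ← integral_const_mul]
  refine integral_congr_ae (Eventually.of_forall fun z => ?_)
  simp only [smul_eq_mul]
  rw [abs_det_D0 hℓ hpos hδ hρ, Jac_eq, ← Fmap_eq]
  ring

/-! ### square integrability -/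

theorem Jac_bounds (hℓ : 0 < ℓ) (hc : Continuous h) (hpos : ∀ s, 0 < h s) (hδ : 0 < δ)
    (hρ : 0 < ρ) : ∃ c > 0, ∃ C, ∀ z ∈ strip ℓ, c ≤ Jac ℓ h δ ρ z ∧ Jac ℓ h δ ρ z ≤ C := by
  have hJ : Continuous (Jac ℓ h δ ρ) := by
    unfold Jac md ex
    fun_prop
  have hK : IsCompact (Icc (0:ℝ) ℓ ×ˢ Icc (-1:ℝ) 1) := isCompact_Icc.prod isCompact_Icc
  have hne : (Icc (0:ℝ) ℓ ×ˢ Icc (-1:ℝ) 1).Nonempty :=
    ⟨(0, 0), ⟨⟨le_rfl, hℓ.le⟩, ⟨by norm_num, by norm_num⟩⟩⟩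
  have hsub : strip ℓ ⊆ Icc (0:ℝ) ℓ ×ˢ Icc (-1:ℝ) 1 :=
    prod_mono Ioc_subset_Icc_self Ioo_subset_Icc_self
  obtain ⟨z0, -, hz0⟩ := hK.exists_isMinOn hne hJ.continuousOn
  obtain ⟨z1, -, hz1⟩ := hK.exists_isMaxOn hne hJ.continuousOn
  refine ⟨Jac ℓ h δ ρ z0, ?_, Jac ℓ h δ ρ z1, fun z hz => ⟨hz0 (hsub hz), hz1 (hsub hz)⟩⟩
  unfold Jac
  have := hpos z0.1
  have := md_pos (ℓ := ℓ) (h := h) (δ := δ) hρ z0
  have := Real.pi_pos
  positivity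

theorem memLp_withDensity_iff {μ : Measure (ℝ × ℝ)} {J : ℝ × ℝ → ℝ} {c C : ℝ} (hc : 0 < c)
    (hJ : ∀ᵐ z ∂μ, c ≤ J z ∧ J z ≤ C) (g : ℝ × ℝ → ℝ) :
    MemLp g 2 (μ.withDensity fun z => ENNReal.ofReal (J z)) ↔ MemLp g 2 μ := by
  have h1 : μ.withDensity (fun z => ENNReal.ofReal (J z)) ≤ ENNReal.ofReal C • μ := by
    rw [← withDensity_const]
    exact withDensity_mono (hJ.mono fun z hz => ENNReal.ofReal_le_ofReal hz.2)
  have h2 : ENNReal.ofReal c • μ ≤ μ.withDensity (fun z => ENNReal.ofReal (J z)) := by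
    rw [← withDensity_const]
    exact withDensity_mono (hJ.mono fun z hz => ENNReal.ofReal_le_ofReal hz.1)
  have hc0 : ENNReal.ofReal c ≠ 0 := by
    rw [Ne, ENNReal.ofReal_eq_zero]
    push Not
    exact hc
  have h3 : μ ≤ (ENNReal.ofReal c)⁻¹ • μ.withDensity (fun z => ENNReal.ofReal (J z)) := by
    calc μ = (ENNReal.ofReal c)⁻¹ • (ENNReal.ofReal c • μ) := by
          rw [smul_smul, ENNReal.inv_mul_cancel hc0 ENNReal.ofReal_ne_top, one_smul]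
      _ ≤ _ := by
          intro s
          simp only [Measure.smul_apply, smul_eq_mul]
          have := h2 s
          simp only [Measure.smul_apply, smul_eq_mul] at this
          gcongr
  constructor
  · intro h
    exact h.of_measure_le_smul (ENNReal.inv_ne_top.2 hc0) h3
  · intro h
    exact h.of_measure_le_smul ENNReal.ofReal_ne_top h1

/-- the second part of A3 -/
theorem memLp_Om (hℓ : 0 < ℓ) (hh : Differentiable ℝ h) (hper : ∀ s, h (s + ℓ) = h s)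
    (hpos : ∀ s, 0 < h s) (hδ : 0 < δ) (hρ : 0 < ρ) (f : E2 → ℝ) :
    MemLp f 2 (volume.restrict (Om ℓ h δ ρ)) ↔ MemLp (fun z => f (Fmap ℓ h δ ρ z)) 2 (muT ℓ) := by
  have hF : ∀ z ∈ strip ℓ, HasFDerivWithinAt (F0 ℓ h δ ρ) (D0 ℓ h δ ρ z) (strip ℓ) z :=
    fun z _ => (hasFDerivAt_F0 hh z).hasFDerivWithinAt
  have hi := F0_inj hℓ hpos hδ hρ
  have hs := measurableSet_strip ℓ
  have hemb := measurableEmbedding_of_fderivWithin hs hF hi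
  have hmap := restrict_map_withDensity_abs_det_fderiv_eq_addHaar volume hs hF hi
  have h1 : volume.restrict (Om ℓ h δ ρ) =
      Measure.map (fun z => eL z) (volume.restrict (F0 ℓ h δ ρ '' strip ℓ)) := by
    rw [Om_eq hℓ hper]
    exact ((eL_mp.restrict_image_emb eL_emb _).map_eq).symm
  rw [h1, eL_emb.memLp_map_measure_iff, ← hmap, hemb.memLp_map_measure_iff]
  have h2 : ((f ∘ fun z => eL z) ∘ (strip ℓ).domRestrict (F0 ℓ h δ ρ)) =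
      (fun z => f (Fmap ℓ h δ ρ z)) ∘ ((↑) : strip ℓ → ℝ × ℝ) := rfl
  rw [h2, ← (MeasurableEmbedding.subtype_coe hs).memLp_map_measure_iff, map_comap_subtype_coe hs,
    restrict_withDensity hs, muT_eq]
  obtain ⟨c, hc, C, hb⟩ := Jac_bounds hℓ hh.continuous hpos hδ hρ
  refine memLp_withDensity_iff (C := C) hc ?_ _
  refine (ae_restrict_iff' hs).2 (Eventually.of_forall fun z hz => ?_)
  rw [abs_det_D0 hℓ hpos hδ hρ]
  exact hb z hz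

/-! ### gradients -/

theorem inner_eL (v : E2) (w : ℝ × ℝ) : inner ℝ v (eL w) = v 0 * w.1 + v 1 * w.2 := by
  rw [eL_apply, PiLp.inner_apply, Fin.sum_univ_two]
  simp
  ring

theorem fderiv_Fmap (hh : Differentiable ℝ h) (z w : ℝ × ℝ) :
    fderiv ℝ (Fmap ℓ h δ ρ) z w = eL (D0 ℓ h δ ρ z w) := by
  have h1 : HasFDerivAt (Fmap ℓ h δ ρ) ((eL : (ℝ × ℝ) →L[ℝ] E2).comp (D0 ℓ h δ ρ z)) z :=
    (eL : (ℝ × ℝ) →L[ℝ] E2).hasFDerivAt.comp z (hasFDerivAt_F0 hh z)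
  rw [h1.fderiv]
  rfl

theorem G1_eq (hh : Differentiable ℝ h) (hpos : ∀ s, 0 < h s) (G : E2 → E2) (z : ℝ × ℝ) :
    G1 h (pbS ℓ h δ ρ G) (pbY ℓ h δ ρ G) z = md ℓ h δ ρ z * (2 * Real.pi / ℓ) *
      (G (Fmap ℓ h δ ρ z) 1 * Real.cos (2 * Real.pi * z.1 / ℓ)
        - G (Fmap ℓ h δ ρ z) 0 * Real.sin (2 * Real.pi * z.1 / ℓ)) := by
  have h0 := (hpos z.1).ne'
  unfold G1 pbS pbY
  rw [fderiv_Fmap hh, fderiv_Fmap hh, inner_eL, inner_eL, D0_apply, D0_apply]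
  simp only [mul_one, mul_zero, add_zero, zero_add]
  field_simp
  ring

theorem G2_eq (hh : Differentiable ℝ h) (hpos : ∀ s, 0 < h s) (hδ : 0 < δ) (G : E2 → E2)
    (z : ℝ × ℝ) :
    G2 h δ (pbY ℓ h δ ρ G) z = md ℓ h δ ρ z * (2 * Real.pi / ℓ) *
      (G (Fmap ℓ h δ ρ z) 0 * Real.cos (2 * Real.pi * z.1 / ℓ)
        + G (Fmap ℓ h δ ρ z) 1 * Real.sin (2 * Real.pi * z.1 / ℓ)) := by
  have h0 := (hpos z.1).ne'
  have h1 := hδ.ne'
  unfold G2 pbY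
  rw [fderiv_Fmap hh, inner_eL, D0_apply]
  simp only [mul_one, mul_zero, zero_add]
  field_simp

/-- the third part of A3 -/
theorem integral_inner (hℓ : 0 < ℓ) (hh : Differentiable ℝ h) (hper : ∀ s, h (s + ℓ) = h s)
    (hpos : ∀ s, 0 < h s) (hδ : 0 < δ) (hρ : 0 < ρ) (G G' : E2 → E2) :
    ∫ x in Om ℓ h δ ρ, inner ℝ (G x) (G' x) = 2 * δ * Bil ℓ h δ (pbS ℓ h δ ρ G)
        (pbY ℓ h δ ρ G) (pbS ℓ h δ ρ G') (pbY ℓ h δ ρ G') := by
  rw [integral_Om hℓ hh hper hpos hδ hρ]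
  unfold Inu Bil
  rw [mul_assoc, ← integral_const_mul]
  congr 1
  refine integral_congr_ae (Eventually.of_forall fun z => ?_)
  simp only
  rw [G1_eq hh hpos, G1_eq hh hpos, G2_eq hh hpos hδ, G2_eq hh hpos hδ]
  have hom : md ℓ h δ ρ z ^ 2 = ρ ^ 2 * om ℓ h δ z := by
    unfold md om ex
    rw [mul_pow, ← Real.exp_nat_mul]
    congr 2
    push_cast
    ring
  have hin : inner ℝ (G (Fmap ℓ h δ ρ z)) (G' (Fmap ℓ h δ ρ z)) =
      G (Fmap ℓ h δ ρ z) 0 * G' (Fmap ℓ h δ ρ z) 0 +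
        G (Fmap ℓ h δ ρ z) 1 * G' (Fmap ℓ h δ ρ z) 1 := by
    rw [PiLp.inner_apply, Fin.sum_univ_two]
    simp
    ring
  rw [hin]
  have h1 := Real.sin_sq_add_cos_sq (2 * Real.pi * z.1 / ℓ)
  set a := Real.cos (2 * Real.pi * z.1 / ℓ)
  set b := Real.sin (2 * Real.pi * z.1 / ℓ)
  set g0 := G (Fmap ℓ h δ ρ z) 0
  set g1 := G (Fmap ℓ h δ ρ z) 1
  set k0 := G' (Fmap ℓ h δ ρ z) 0
  set k1 := G' (Fmap ℓ h δ ρ z) 1
  set m := md ℓ h δ ρ z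
  have h2 : (2 * Real.pi * ρ / ℓ) ^ 2 * om ℓ h δ z = (2 * Real.pi / ℓ) ^ 2 * m ^ 2 := by
    rw [hom]; ring
  linear_combination ((g0 * k0 + g1 * k1) * h z.1 / 2) * h2
    - ((2 * Real.pi / ℓ) ^ 2 * m ^ 2 * (g0 * k0 + g1 * k1) * h z.1 / 2) * h1

end

theorem a3 : A3Statement := by
  intro ℓ hℓ h hs hper hpos δ hδ ρ hρ
  have hh : Differentiable ℝ h := hs.differentiable (by simp)
  exact ⟨integral_Om hℓ hh hper hpos hδ hρ, memLp_Om hℓ hh hper hpos hδ hρ,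
    integral_inner hℓ hh hper hpos hδ hρ⟩

end Pool.Agent.Lib.MP_e46711_an.H34
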